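import Pool.Agent.Lib.MP_62560c_lc.Final

/-!
The perfect set property for Σ₁-definable subsets of `𝒫(λ)`, with parameters in
`V_λ ∪ {⟨λ_n : n < ω⟩}`, where `λ` is the supremum of the `<λ`-supercompact cardinals
`λ_0 < λ_1 < ⋯`: the positive answer to Q1 of the problem.
-/

set_option autoImplicit false

open Cardinal

universe u

namespace Pool.Agent.Results.MP_62560c_lc.PerfectSetProperty

open Pool.Agent.Lib.MP_62560c_lc

/-- Let `lam 0 < lam 1 < ⋯` be cardinals with supremum `λ` such that each of them is
`γ`-supercompact for all `γ < λ`.  Then every `X ⊆ 𝒫(λ)` with more than `λ` elements that is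
definable by a Σ₁ formula with parameters in `V_λ ∪ {⟨lam n : n < ω⟩}` contains the range of a
perfect embedding of `^ωλ` into `𝒫(λ)`. -/
theorem result (lam : ℕ → Cardinal.{u}) (hmono : StrictMono lam)
    (hsc : ∀ n, ∀ γ < lamSup lam, IsSupercompact (lam n) γ)
    (X : Set (Set (Lam lam))) (hX : Sigma1Def lam X) (hcard : lamSup lam < #X) :
    ∃ ι : (ℕ → Lam lam) → Set (Lam lam), PerfectEmbedding ι ∧ Set.range ι ⊆ X :=
  main lam hmono hsc X hX hcard

end Pool.Agent.Results.MP_62560c_lc.PerfectSetProperty
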